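import Pool.Agent.Helper33.RG.LOW

/-!
# MP_1f20e3_co, Q1: the constant `C(g)` is asymptotically `g / 2`

`Cg g` (file `Pool/Agent/Helper33/RG/Defs.lean`) is the least `C` such that
`ch G ≤ max C (ω(G) + 2)` for every finite simple graph `G` of reduced genus `g`.
-/

set_option autoImplicit false

namespace Pool.Agent.Results.MP_1f20e3_co.ChoiceSlope

open Pool.Agent.Helper33.RG

/-- `C(g) / g` tends to `1 / 2`. -/
theorem result :
    Filter.Tendsto (fun g : ℕ => (Cg g : ℝ) / g) Filter.atTop (nhds (1 / 2)) :=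
  main

end Pool.Agent.Results.MP_1f20e3_co.ChoiceSlope
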